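import Pool.Agent.helper97.KR.Spec

set_option autoImplicit false

namespace Pool.Agent.helper97.KR

open Finset Classical

noncomputable section

theorem ST (hDG : DG_stmt) (hSP3 : SP3_stmt) (hTG : TG_stmt) (hTSK : TSK_stmt) (hTWO : TWO_stmt)
    (hG4 : G4_stmt) (hG5 : G5_stmt) (hD4P : D4P_stmt) (hI4 : I4_stmt) : ST_stmt := by
  intro V E ends S F v hG hS hv hd hP
  obtain ⟨hdeg, -⟩ := hDG V E ends S F hG (by omega)
  obtain ⟨h3, hins⟩ := hdeg v hv
  obtain ⟨hF, -⟩ := hSP3 V E ends S F hG
  have hUc : (S.erase v).card + 1 = S.card := Finset.card_erase_add_one hv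
  rcases Nat.lt_or_ge (dgr ends F v) 4 with h4 | h4
  · -- degree 3
    have hd3 : dgr ends F v = 3 := by omega
    have htight : (ins ends F (S.erase v)).card + 3 = 3 * (S.erase v).card := by omega
    have hne : (S.erase v).Nonempty := Finset.card_pos.1 (by omega)
    obtain ⟨t, ht⟩ := hne
    have hsub : S.erase v ⊆ S := Finset.erase_subset _ _
    obtain ⟨g1, g2⟩ := hTG V E ends S (S.erase v) t F hG hsub ht htight
    have htv : t ≠ v := (Finset.mem_erase.1 ht).1
    have hcS : (cS S (S.erase v) t).card = 2 := by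
      have e1 : S \ S.erase v = {v} := by
        ext y
        simp only [Finset.mem_sdiff, Finset.mem_erase, Finset.mem_singleton]
        constructor
        · rintro ⟨a, b⟩
          by_contra h
          exact b ⟨h, a⟩
        · rintro rfl
          exact ⟨hv, fun h => h.1 rfl⟩
      unfold cS
      rw [e1]
      exact Finset.card_pair htv
    refine hTSK V E ends S (S.erase v) t F hsub ht (by omega) (by omega) ?_
      (hTWO V E _ _ _ g2 hcS)
    refine hP ends (ins ends F (S.erase v)) g1 ?_ ?_
    · intro w _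
      unfold dgr
      refine Finset.card_le_card fun e he => ?_
      rw [Finset.mem_filter] at he ⊢
      exact ⟨(Finset.mem_filter.1 he.1).1, he.2⟩
    · rintro w hw w' hw' ⟨e, he, hee⟩
      refine ⟨e, ?_, hee⟩
      unfold ins
      rw [Finset.mem_filter]
      refine ⟨he, fun y hy => ?_⟩
      rw [hee, Sym2.mem_iff] at hy
      rcases hy with rfl | rfl
      · exact hw
      · exact hw'
  · -- degree 4
    have hd4 : dgr ends F v = 4 := by omega
    obtain ⟨a, b, x1, x2, u2, u3, hD, T, t1, t2, t3, t4, m1, m2, m3, m4⟩ :=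
      hG4 V E ends S F v hG hv hd4
    have g := hG5 V E ends S F v a b x1 x2 u2 u3 T hD t1 t2 t3 t4 m1 m2 m3 m4
    obtain ⟨p1, p2⟩ := hD4P V E ends S F v a b x1 x2 u2 u3 hD
    exact hI4 V E ends S F v a b x1 x2 u2 u3 hD (hP _ _ g p1 p2)

end

end Pool.Agent.helper97.KR
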